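import Pool.Agent.Q63.LH.Stm

/-! Project LH (helper63), JOB DUH: the Duhamel integral at one frequency. -/

set_option autoImplicit false

open MeasureTheory Set Filter
open scoped Topology

namespace Pool.Agent.Q174.LH

theorem int_exp_le (r t τ : ℝ) (hr : 0 < r) (ht : 0 ≤ t) (hτ : t ≤ τ) :
    ∫ s in (0 : ℝ)..t, Real.exp (-((t - s) * r)) ≤ min τ (1 / r) := by
  have hcont : Continuous fun s : ℝ => Real.exp (-((t - s) * r)) := by fun_prop
  refine le_min ?_ ?_
  · have h1 : ∫ s in (0 : ℝ)..t, Real.exp (-((t - s) * r)) ≤ ∫ _ in (0 : ℝ)..t, (1 : ℝ) := by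
      refine intervalIntegral.integral_mono_on ht (hcont.intervalIntegrable _ _)
        (continuous_const.intervalIntegrable _ _) ?_
      intro s hs
      rw [Real.exp_le_one_iff]
      have : 0 ≤ (t - s) * r := mul_nonneg (by linarith [hs.2]) hr.le
      linarith
    rw [intervalIntegral.integral_const, smul_eq_mul, mul_one, sub_zero] at h1
    linarith
  · have h1 : ∀ s ∈ Set.uIcc 0 t, HasDerivAt (fun s => Real.exp (-((t - s) * r)) / r)
        (Real.exp (-((t - s) * r))) s := by
      intro s _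
      have h2 : HasDerivAt (fun s : ℝ => -((t - s) * r)) r s := by
        have h3 : HasDerivAt (fun s : ℝ => t - s) (-1) s := by
          simpa using (hasDerivAt_id s).const_sub t
        have h4 := (h3.mul_const r).neg
        have e : -(-1 * r) = r := by ring
        rw [e] at h4
        exact h4
      have h5 := (h2.exp).div_const r
      have h6 : Real.exp (-((t - s) * r)) * r / r = Real.exp (-((t - s) * r)) := by
        field_simp
      rwa [h6] at h5
    rw [intervalIntegral.integral_eq_sub_of_hasDerivAt h1 (hcont.intervalIntegrable _ _)]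
    have h2 : Real.exp (-((t - t) * r)) = 1 := by simp
    rw [h2]
    have h3 : 0 ≤ Real.exp (-((t - 0) * r)) / r := by positivity
    linarith

theorem duh : Pool.Agent.Q63.LH.S_DUH := by
  refine ⟨1, one_pos, ?_⟩
  intro τ r g G hτ hr hg hG hbd t ht
  have htr : 0 < 1 + t * r := by nlinarith [mul_nonneg ht.1 hr.le]
  have key : ∀ s ∈ Icc 0 t,
      ‖((Real.exp (-(4 * Real.pi ^ 2 * (t - s) * r)) : ℝ) : ℂ) * G s‖ ≤
        g / (1 + t * r) * Real.exp (-((t - s) * r)) := by
    intro s hs
    have hs1 : s ∈ Icc 0 τ := ⟨hs.1, hs.2.trans ht.2⟩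
    have hx : 0 ≤ (t - s) * r := mul_nonneg (by linarith [hs.2]) hr.le
    have hsr : 0 < 1 + s * r := by nlinarith [mul_nonneg hs.1 hr.le]
    rw [norm_mul, Complex.norm_real, Real.norm_eq_abs, abs_of_pos (Real.exp_pos _)]
    have hpi : 2 ≤ 4 * Real.pi ^ 2 := by nlinarith [Real.pi_gt_three]
    -- the exponential
    have h1 : Real.exp (-(4 * Real.pi ^ 2 * (t - s) * r)) ≤
        Real.exp (-((t - s) * r)) * Real.exp (-((t - s) * r)) := by
      rw [← Real.exp_add, Real.exp_le_exp]
      nlinarith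
    have h2 : Real.exp (-((t - s) * r)) * (1 + (t - s) * r) ≤ 1 := by
      have h3 := Real.add_one_le_exp ((t - s) * r)
      have h4 : Real.exp (-((t - s) * r)) * Real.exp ((t - s) * r) = 1 := by
        rw [← Real.exp_add]; simp
      calc Real.exp (-((t - s) * r)) * (1 + (t - s) * r)
          ≤ Real.exp (-((t - s) * r)) * Real.exp ((t - s) * r) :=
            mul_le_mul_of_nonneg_left (by linarith) (Real.exp_pos _).le
        _ = 1 := h4
    have h3 : (1 + t * r) ≤ (1 + s * r) * (1 + (t - s) * r) := by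
      nlinarith [mul_nonneg (mul_nonneg hs.1 hr.le) hx]
    have h5 : Real.exp (-(4 * Real.pi ^ 2 * (t - s) * r)) * (1 + t * r) ≤
        Real.exp (-((t - s) * r)) * (1 + s * r) := by
      calc Real.exp (-(4 * Real.pi ^ 2 * (t - s) * r)) * (1 + t * r)
          ≤ (Real.exp (-((t - s) * r)) * Real.exp (-((t - s) * r))) *
              ((1 + s * r) * (1 + (t - s) * r)) :=
            mul_le_mul h1 h3 htr.le (by positivity)
        _ = (Real.exp (-((t - s) * r)) * (1 + s * r)) *
              (Real.exp (-((t - s) * r)) * (1 + (t - s) * r)) := by ring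
        _ ≤ (Real.exp (-((t - s) * r)) * (1 + s * r)) * 1 :=
            mul_le_mul_of_nonneg_left h2 (by positivity)
        _ = _ := mul_one _
    have h6 := hbd s hs1
    calc Real.exp (-(4 * Real.pi ^ 2 * (t - s) * r)) * ‖G s‖
        ≤ Real.exp (-(4 * Real.pi ^ 2 * (t - s) * r)) * (g / (1 + s * r)) :=
          mul_le_mul_of_nonneg_left h6 (Real.exp_pos _).le
      _ ≤ g / (1 + t * r) * Real.exp (-((t - s) * r)) := by
          rw [div_mul_eq_mul_div, mul_div_assoc', div_le_div_iff₀ hsr htr]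
          nlinarith [mul_le_mul_of_nonneg_left h5 hg]
  have h1 : ‖∫ s in (0 : ℝ)..t, ((Real.exp (-(4 * Real.pi ^ 2 * (t - s) * r)) : ℝ) : ℂ) * G s‖ ≤
      ∫ s in (0 : ℝ)..t, g / (1 + t * r) * Real.exp (-((t - s) * r)) := by
    refine intervalIntegral.norm_integral_le_of_norm_le ht.1 ?_ ?_
    · exact Filter.Eventually.of_forall fun s hs => key s ⟨hs.1.le, hs.2⟩
    · apply Continuous.intervalIntegrable
      fun_prop
  rw [intervalIntegral.integral_const_mul] at h1
  have h2 := int_exp_le r t τ hr ht.1 ht.2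
  calc (1 + t * r) *
        ‖∫ s in (0 : ℝ)..t, ((Real.exp (-(4 * Real.pi ^ 2 * (t - s) * r)) : ℝ) : ℂ) * G s‖
      ≤ (1 + t * r) * (g / (1 + t * r) * ∫ s in (0 : ℝ)..t, Real.exp (-((t - s) * r))) :=
        mul_le_mul_of_nonneg_left h1 htr.le
    _ = g * ∫ s in (0 : ℝ)..t, Real.exp (-((t - s) * r)) := by
        field_simp
    _ ≤ g * min τ (1 / r) := mul_le_mul_of_nonneg_left h2 hg
    _ = 1 * min τ (1 / r) * g := by ring

end Pool.Agent.Q174.LH
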