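import Pool.Agent.Q63.LH.Stm

/-! Project LH (helper63), JOB KER: the bilinear estimate. -/

set_option autoImplicit false

open MeasureTheory Set Filter
open scoped Topology ENNReal

namespace Pool.Agent.Q174.LH

open Pool.Agent.W785.QR (E)

/-- Cauchy-Schwarz for lower integrals. -/
theorem cs (p q : E → ℝ≥0∞) (hp : Measurable p) (hq : Measurable q) :
    ∫⁻ x, p x * q x ≤ (∫⁻ x, p x ^ 2) ^ (1 / 2 : ℝ) * (∫⁻ x, q x ^ 2) ^ (1 / 2 : ℝ) := by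
  have h := ENNReal.lintegral_mul_le_Lp_mul_Lq volume Real.HolderConjugate.two_two
    hp.aemeasurable hq.aemeasurable
  simpa using h

theorem half_mul (x : ℝ≥0∞) : x ^ (1 / 2 : ℝ) * x ^ (1 / 2 : ℝ) = x := by
  rw [← ENNReal.rpow_add_of_nonneg _ _ (by norm_num) (by norm_num)]
  norm_num

theorem half_sq (x : ℝ≥0∞) : (x ^ (1 / 2 : ℝ)) ^ 2 = x := by
  rw [sq, half_mul]

/-- Weighted Cauchy-Schwarz. -/
theorem cs3 (a w : E → ℝ≥0∞) (ha : Measurable a) (hw : Measurable w) :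
    (∫⁻ x, a x * w x) ^ 2 ≤ (∫⁻ x, a x) * ∫⁻ x, a x * w x ^ 2 := by
  have h := cs (fun x => a x ^ (1 / 2 : ℝ)) (fun x => a x ^ (1 / 2 : ℝ) * w x)
    (ha.pow_const _) ((ha.pow_const _).mul hw)
  have e1 : ∀ x, a x ^ (1 / 2 : ℝ) * (a x ^ (1 / 2 : ℝ) * w x) = a x * w x := by
    intro x; rw [← mul_assoc, half_mul]
  have e2 : ∀ x, (a x ^ (1 / 2 : ℝ)) ^ 2 = a x := fun x => half_sq _
  have e3 : ∀ x, (a x ^ (1 / 2 : ℝ) * w x) ^ 2 = a x * w x ^ 2 := by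
    intro x; rw [mul_pow, half_sq]
  simp only [e1, e2, e3] at h
  calc (∫⁻ x, a x * w x) ^ 2
      ≤ ((∫⁻ x, a x) ^ (1 / 2 : ℝ) * (∫⁻ x, a x * w x ^ 2) ^ (1 / 2 : ℝ)) ^ 2 := by gcongr
    _ = (∫⁻ x, a x) * ∫⁻ x, a x * w x ^ 2 := by rw [mul_pow, half_sq, half_sq]

/-- The main estimate, first half. -/
theorem main1 (f g w k : E → ℝ≥0∞) (hf : Measurable f) (hg : Measurable g) (hw : Measurable w)
    (hk : Measurable k) :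
    ∫⁻ ξ, (k ξ * ∫⁻ ζ, f ζ * g (ξ - ζ) * w ζ) ^ 2 ≤
      (∫⁻ ξ, f ξ ^ 2) * (∫⁻ ξ, g ξ ^ 2) *
        ((∫⁻ ξ, k ξ ^ 4) * ∫⁻ ξ, w ξ ^ 4) ^ (1 / 2 : ℝ) := by
  set X := ∫⁻ ξ, f ξ ^ 2 with hX
  set Y := ∫⁻ ξ, g ξ ^ 2 with hY
  set K := ∫⁻ ξ, k ξ ^ 4 with hK
  set W := ∫⁻ ξ, w ξ ^ 4 with hW
  have hgs : ∀ ξ : E, Measurable fun ζ => g (ξ - ζ) := fun ξ =>
    hg.comp (measurable_const.sub measurable_id)
  have h1 : ∀ ξ : E, ∫⁻ ζ, f ζ * g (ξ - ζ) ≤ X ^ (1 / 2 : ℝ) * Y ^ (1 / 2 : ℝ) := by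
    intro ξ
    have h := cs f (fun ζ => g (ξ - ζ)) hf (hgs ξ)
    rwa [lintegral_sub_left_eq_self (fun ζ => g ζ ^ 2) ξ] at h
  have h2 : ∀ ξ : E, (k ξ * ∫⁻ ζ, f ζ * g (ξ - ζ) * w ζ) ^ 2 ≤
      (X ^ (1 / 2 : ℝ) * Y ^ (1 / 2 : ℝ)) *
        ∫⁻ ζ, k ξ ^ 2 * (f ζ * g (ξ - ζ) * w ζ ^ 2) := by
    intro ξ
    have h := cs3 (fun ζ => f ζ * g (ξ - ζ)) w (hf.mul (hgs ξ)) hw
    have hm : Measurable fun ζ => f ζ * g (ξ - ζ) * w ζ ^ 2 :=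
      (hf.mul (hgs ξ)).mul (hw.pow_const _)
    rw [mul_pow, lintegral_const_mul _ hm]
    calc k ξ ^ 2 * (∫⁻ ζ, f ζ * g (ξ - ζ) * w ζ) ^ 2
        ≤ k ξ ^ 2 * ((X ^ (1 / 2 : ℝ) * Y ^ (1 / 2 : ℝ)) *
            ∫⁻ ζ, f ζ * g (ξ - ζ) * w ζ ^ 2) := by
          gcongr
          exact h.trans (by gcongr; exact h1 ξ)
      _ = _ := by ring
  calc ∫⁻ ξ, (k ξ * ∫⁻ ζ, f ζ * g (ξ - ζ) * w ζ) ^ 2
      ≤ ∫⁻ ξ, (X ^ (1 / 2 : ℝ) * Y ^ (1 / 2 : ℝ)) *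
          ∫⁻ ζ, k ξ ^ 2 * (f ζ * g (ξ - ζ) * w ζ ^ 2) := lintegral_mono h2
    _ = (X ^ (1 / 2 : ℝ) * Y ^ (1 / 2 : ℝ)) *
          ∫⁻ ξ, ∫⁻ ζ, k ξ ^ 2 * (f ζ * g (ξ - ζ) * w ζ ^ 2) := by
        rw [lintegral_const_mul]
        apply Measurable.lintegral_prod_right'
          (f := fun z : E × E => k z.1 ^ 2 * (f z.2 * g (z.1 - z.2) * w z.2 ^ 2))
        fun_prop
    _ = (X ^ (1 / 2 : ℝ) * Y ^ (1 / 2 : ℝ)) *
          ∫⁻ ζ, (f ζ * w ζ ^ 2) * ∫⁻ ξ, k ξ ^ 2 * g (ξ - ζ) := by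
        congr 1
        rw [lintegral_lintegral_swap]
        · apply lintegral_congr
          intro ζ
          have hm : Measurable fun ξ => k ξ ^ 2 * g (ξ - ζ) :=
            (hk.pow_const _).mul (hg.comp (measurable_id.sub measurable_const))
          rw [← lintegral_const_mul _ hm]
          apply lintegral_congr
          intro ξ
          ring
        · apply Measurable.aemeasurable
          change Measurable fun z : E × E => k z.1 ^ 2 * (f z.2 * g (z.1 - z.2) * w z.2 ^ 2)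
          fun_prop
    _ ≤ (X ^ (1 / 2 : ℝ) * Y ^ (1 / 2 : ℝ)) *
          ∫⁻ ζ, (f ζ * w ζ ^ 2) * (K ^ (1 / 2 : ℝ) * Y ^ (1 / 2 : ℝ)) := by
        gcongr with ζ
        have h := cs (fun ξ => k ξ ^ 2) (fun ξ => g (ξ - ζ)) (hk.pow_const _)
          (hg.comp (measurable_id.sub measurable_const))
        rw [lintegral_sub_right_eq_self (fun ξ => g ξ ^ 2) ζ] at h
        simpa only [← pow_mul] using h
    _ = (X ^ (1 / 2 : ℝ) * Y ^ (1 / 2 : ℝ)) *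
          ((∫⁻ ζ, (f ζ * w ζ ^ 2)) * (K ^ (1 / 2 : ℝ) * Y ^ (1 / 2 : ℝ))) := by
        have hm : Measurable fun ζ => f ζ * w ζ ^ 2 := hf.mul (hw.pow_const _)
        rw [lintegral_mul_const _ hm]
    _ ≤ (X ^ (1 / 2 : ℝ) * Y ^ (1 / 2 : ℝ)) *
          ((X ^ (1 / 2 : ℝ) * W ^ (1 / 2 : ℝ)) * (K ^ (1 / 2 : ℝ) * Y ^ (1 / 2 : ℝ))) := by
        gcongr
        have h := cs f (fun ξ => w ξ ^ 2) hf (hw.pow_const _)
        simpa only [← pow_mul] using h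
    _ = (X ^ (1 / 2 : ℝ) * X ^ (1 / 2 : ℝ)) * (Y ^ (1 / 2 : ℝ) * Y ^ (1 / 2 : ℝ)) *
          (K ^ (1 / 2 : ℝ) * W ^ (1 / 2 : ℝ)) := by ring
    _ = X * Y * (K * W) ^ (1 / 2 : ℝ) := by
        rw [half_mul, half_mul, ENNReal.mul_rpow_of_nonneg _ _ (by norm_num)]

/-- The main estimate, second half. -/
theorem main2 (f g w k : E → ℝ≥0∞) (hf : Measurable f) (hg : Measurable g) (hw : Measurable w)
    (hk : Measurable k) :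
    ∫⁻ ξ, (k ξ * ∫⁻ ζ, f ζ * g (ξ - ζ) * w (ξ - ζ)) ^ 2 ≤
      (∫⁻ ξ, f ξ ^ 2) * (∫⁻ ξ, g ξ ^ 2) *
        ((∫⁻ ξ, k ξ ^ 4) * ∫⁻ ξ, w ξ ^ 4) ^ (1 / 2 : ℝ) := by
  have h := main1 g f w k hg hf hw hk
  have e : ∀ ξ : E, ∫⁻ ζ, g ζ * f (ξ - ζ) * w ζ = ∫⁻ ζ, f ζ * g (ξ - ζ) * w (ξ - ζ) := by
    intro ξ
    rw [← lintegral_sub_left_eq_self (fun ζ => g ζ * f (ξ - ζ) * w ζ) ξ]
    apply lintegral_congr
    intro ζ
    rw [sub_sub_cancel]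
    ring
  simp only [e] at h
  rwa [mul_comm (∫⁻ ξ, g ξ ^ 2)] at h

/-- The weight. -/
noncomputable def kk (τ : ℝ) (ξ : E) : ℝ := (1 + ‖ξ‖) * min τ (1 / ‖ξ‖ ^ 2)

theorem kk_nonneg (τ : ℝ) (hτ : 0 ≤ τ) (ξ : E) : 0 ≤ kk τ ξ := by
  unfold kk; positivity

theorem kk_meas (τ : ℝ) : Measurable (kk τ) := by
  unfold kk; fun_prop

theorem kk_le (τ : ℝ) (hτ : 0 ≤ τ) (hτ1 : τ ≤ 1) (ξ : E) : kk τ ξ ≤ 4 * (1 / (1 + ‖ξ‖)) := by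
  have hr : 0 ≤ ‖ξ‖ := norm_nonneg _
  have h1 : 0 < 1 + ‖ξ‖ := by linarith
  rw [mul_one_div, le_div_iff₀ h1]
  unfold kk
  by_cases h : ‖ξ‖ ≤ 1
  · have h2 : min τ (1 / ‖ξ‖ ^ 2) ≤ 1 := (min_le_left _ _).trans hτ1
    have h3 : 0 ≤ min τ (1 / ‖ξ‖ ^ 2) := by positivity
    nlinarith [mul_nonneg h3 hr, mul_nonneg (mul_nonneg h3 hr) hr]
  · push Not at h
    have h2 : min τ (1 / ‖ξ‖ ^ 2) ≤ 1 / ‖ξ‖ ^ 2 := min_le_right _ _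
    have h3 : (1 + ‖ξ‖) * (1 / ‖ξ‖ ^ 2) * (1 + ‖ξ‖) ≤ 4 := by
      rw [mul_one_div, div_mul_eq_mul_div, div_le_iff₀ (by positivity)]
      nlinarith
    calc (1 + ‖ξ‖) * min τ (1 / ‖ξ‖ ^ 2) * (1 + ‖ξ‖)
        ≤ (1 + ‖ξ‖) * (1 / ‖ξ‖ ^ 2) * (1 + ‖ξ‖) := by gcongr
      _ ≤ 4 := h3

/-- The fourth power of the decay. -/
noncomputable def ww (ξ : E) : ℝ≥0∞ := ENNReal.ofReal (1 / (1 + ‖ξ‖))

theorem ww_meas : Measurable ww := by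
  unfold ww; fun_prop

theorem ww_fin : ∫⁻ ξ, ww ξ ^ 4 ≠ ∞ := by
  have h : Integrable (fun x : E => (1 + ‖x‖) ^ (-(4 : ℝ))) volume := by
    apply integrable_one_add_norm
    simp [E]
    norm_num
  have h2 := h.lintegral_lt_top
  refine ne_of_lt (lt_of_le_of_lt (le_of_eq ?_) h2)
  apply lintegral_congr
  intro ξ
  have h1 : 0 ≤ 1 + ‖ξ‖ := by positivity
  unfold ww
  rw [← ENNReal.ofReal_pow (by positivity)]
  congr 1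
  rw [Real.rpow_neg h1, show (4 : ℝ) = ((4 : ℕ) : ℝ) by norm_num, Real.rpow_natCast, one_div,
    inv_pow]

theorem kk_tendsto : Tendsto (fun n : ℕ => ∫⁻ ξ : E, ENNReal.ofReal (kk (1 / ((n : ℝ) + 1)) ξ) ^ 4)
    atTop (𝓝 0) := by
  have h0 : ∫⁻ _ : E, (0 : ℝ≥0∞) = 0 := by simp
  rw [← h0]
  refine tendsto_lintegral_of_dominated_convergence (fun ξ => 4 ^ 4 * ww ξ ^ 4) ?_ ?_ ?_ ?_
  · intro n
    exact ((kk_meas _).ennreal_ofReal).pow_const _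
  · intro n
    refine Filter.Eventually.of_forall fun ξ => ?_
    change ENNReal.ofReal (kk (1 / ((n : ℝ) + 1)) ξ) ^ 4 ≤ 4 ^ 4 * ww ξ ^ 4
    rw [← mul_pow]
    apply pow_le_pow_left'
    unfold ww
    have h4 : (4 : ℝ≥0∞) = ENNReal.ofReal 4 := by norm_num
    rw [h4, ← ENNReal.ofReal_mul (by norm_num)]
    apply ENNReal.ofReal_le_ofReal
    apply kk_le
    · positivity
    · rw [div_le_one (by positivity)]
      have : (0 : ℝ) ≤ n := by positivity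
      linarith
  · rw [lintegral_const_mul _ (ww_meas.pow_const _)]
    exact ENNReal.mul_ne_top (by norm_num) ww_fin
  · refine Filter.Eventually.of_forall fun ξ => ?_
    have h1 : Tendsto (fun n : ℕ => kk (1 / ((n : ℝ) + 1)) ξ) atTop (𝓝 0) := by
      have h2 : Tendsto (fun n : ℕ => (1 + ‖ξ‖) * (1 / ((n : ℝ) + 1))) atTop (𝓝 0) := by
        simpa using tendsto_one_div_add_atTop_nhds_zero_nat.const_mul (1 + ‖ξ‖)
      refine squeeze_zero (fun n => kk_nonneg _ (by positivity) ξ) (fun n => ?_) h2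
      unfold kk
      gcongr
      exact min_le_left _ _
    have h3 : Tendsto (fun n : ℕ => ENNReal.ofReal (kk (1 / ((n : ℝ) + 1)) ξ)) atTop (𝓝 0) := by
      simpa using ENNReal.tendsto_ofReal h1
    have h5 := ENNReal.Tendsto.pow (n := 4) h3
    simpa using h5

theorem exists_tau (ε : ℝ) (hε : 0 < ε) : ∃ τ : ℝ, 0 < τ ∧ τ ≤ 1 ∧
    4 * ((∫⁻ ξ : E, ENNReal.ofReal (kk τ ξ) ^ 4) * ∫⁻ ξ : E, ww ξ ^ 4) ^ (1 / 2 : ℝ) ≤
      ENNReal.ofReal (ε ^ 2) := by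
  have h1 : Tendsto (fun n : ℕ => 4 * ((∫⁻ ξ : E, ENNReal.ofReal (kk (1 / ((n : ℝ) + 1)) ξ) ^ 4) *
      ∫⁻ ξ : E, ww ξ ^ 4) ^ (1 / 2 : ℝ)) atTop (𝓝 0) := by
    have h2 : Tendsto (fun n : ℕ => ((∫⁻ ξ : E, ENNReal.ofReal (kk (1 / ((n : ℝ) + 1)) ξ) ^ 4) *
      ∫⁻ ξ : E, ww ξ ^ 4)) atTop (𝓝 (0 * ∫⁻ ξ : E, ww ξ ^ 4)) :=
      ENNReal.Tendsto.mul_const kk_tendsto (Or.inr ww_fin)
    rw [zero_mul] at h2
    have h3 := (h2.ennrpow_const (1 / 2 : ℝ))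
    rw [ENNReal.zero_rpow_of_pos (by norm_num)] at h3
    have h4 := ENNReal.Tendsto.const_mul (a := 4) h3 (Or.inr (by norm_num))
    simpa using h4
  have h2 : ∀ᶠ n : ℕ in atTop, 4 * ((∫⁻ ξ : E, ENNReal.ofReal (kk (1 / ((n : ℝ) + 1)) ξ) ^ 4) *
      ∫⁻ ξ : E, ww ξ ^ 4) ^ (1 / 2 : ℝ) ≤ ENNReal.ofReal (ε ^ 2) :=
    (h1.eventually (gt_mem_nhds (by positivity : 0 < ENNReal.ofReal (ε ^ 2)))).mono
      fun n hn => le_of_lt hn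
  obtain ⟨n, hn⟩ := h2.exists
  refine ⟨1 / ((n : ℝ) + 1), by positivity, ?_, hn⟩
  rw [div_le_one (by positivity)]
  have : (0 : ℝ) ≤ n := by positivity
  linarith

theorem ker : Pool.Agent.Q63.LH.S_KER := by
  intro ε hε
  obtain ⟨τ, hτ0, hτ1, hτ⟩ := exists_tau ε hε
  refine ⟨τ, hτ0, hτ1, ?_⟩
  intro F G hF hG hF0 hG0 hF2 hG2
  -- the real function
  set H : E → ℝ := fun ξ => ∫ ζ, F ζ * G (ξ - ζ) / ((1 + ‖ζ‖) * (1 + ‖ξ - ζ‖)) with hH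
  have hHm : Measurable H := by
    have : StronglyMeasurable fun z : E × E =>
        F z.2 * G (z.1 - z.2) / ((1 + ‖z.2‖) * (1 + ‖z.1 - z.2‖)) := by
      apply Measurable.stronglyMeasurable
      fun_prop
    exact this.integral_prod_right'.measurable
  have hH0 : ∀ ξ, 0 ≤ H ξ := fun ξ => integral_nonneg fun ζ =>
    div_nonneg (mul_nonneg (hF0 _) (hG0 _)) (by positivity)
  have hint : ∀ ξ, Integrable fun ζ => F ζ * G (ξ - ζ) := by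
    intro ξ
    have h1 : MemLp F 2 volume := (memLp_two_iff_integrable_sq hF.aestronglyMeasurable).2 hF2
    have h2 : MemLp (fun ζ => G (ξ - ζ)) 2 volume := by
      refine (memLp_two_iff_integrable_sq
        (hG.comp (measurable_const.sub measurable_id)).aestronglyMeasurable).2 ?_
      exact hG2.comp_sub_left ξ
    exact h1.integrable_mul h2
  set f : E → ℝ≥0∞ := fun ξ => ENNReal.ofReal (F ξ) with hf
  set g : E → ℝ≥0∞ := fun ξ => ENNReal.ofReal (G ξ) with hg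
  set k : E → ℝ≥0∞ := fun ξ => ENNReal.ofReal (kk τ ξ) with hk
  have hfm : Measurable f := hF.ennreal_ofReal
  have hgm : Measurable g := hG.ennreal_ofReal
  have hkm : Measurable k := (kk_meas τ).ennreal_ofReal
  have hX : ENNReal.ofReal (∫ ξ, F ξ ^ 2) = ∫⁻ ξ, f ξ ^ 2 := by
    rw [ofReal_integral_eq_lintegral_ofReal hF2 (Filter.Eventually.of_forall fun ξ => sq_nonneg _)]
    apply lintegral_congr
    intro ξ
    rw [ENNReal.ofReal_pow (hF0 _)]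
  have hY : ENNReal.ofReal (∫ ξ, G ξ ^ 2) = ∫⁻ ξ, g ξ ^ 2 := by
    rw [ofReal_integral_eq_lintegral_ofReal hG2 (Filter.Eventually.of_forall fun ξ => sq_nonneg _)]
    apply lintegral_congr
    intro ξ
    rw [ENNReal.ofReal_pow (hG0 _)]
  -- pointwise bound
  have hpt : ∀ ξ, ENNReal.ofReal (‖ξ‖ * H ξ) ≤
      (∫⁻ ζ, f ζ * g (ξ - ζ) * ww ζ) + ∫⁻ ζ, f ζ * g (ξ - ζ) * ww (ξ - ζ) := by
    intro ξ
    have h1 : ‖ξ‖ * H ξ = ∫ ζ, ‖ξ‖ * (F ζ * G (ξ - ζ) / ((1 + ‖ζ‖) * (1 + ‖ξ - ζ‖))) := by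
      rw [integral_const_mul]
    have h2 : ENNReal.ofReal (‖ξ‖ * H ξ) ≤
        ∫⁻ ζ, ENNReal.ofReal (‖ξ‖ * (F ζ * G (ξ - ζ) / ((1 + ‖ζ‖) * (1 + ‖ξ - ζ‖)))) := by
      rw [h1, integral_eq_lintegral_of_nonneg_ae]
      · exact ENNReal.ofReal_toReal_le
      · exact Filter.Eventually.of_forall fun ζ => mul_nonneg (norm_nonneg _)
          (div_nonneg (mul_nonneg (hF0 _) (hG0 _)) (by positivity))
      · apply Measurable.aestronglyMeasurable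
        fun_prop
    refine h2.trans ?_
    rw [← lintegral_add_left]
    · apply lintegral_mono
      intro ζ
      have h3 : ‖ξ‖ * (F ζ * G (ξ - ζ) / ((1 + ‖ζ‖) * (1 + ‖ξ - ζ‖))) ≤
          F ζ * G (ξ - ζ) * (1 / (1 + ‖ζ‖)) + F ζ * G (ξ - ζ) * (1 / (1 + ‖ξ - ζ‖)) := by
        have h4 : ‖ξ‖ ≤ ‖ζ‖ + ‖ξ - ζ‖ := by
          calc ‖ξ‖ = ‖ζ + (ξ - ζ)‖ := by rw [add_sub_cancel]
            _ ≤ _ := norm_add_le _ _
        have h5 : 0 < 1 + ‖ζ‖ := by positivity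
        have h6 : 0 < 1 + ‖ξ - ζ‖ := by positivity
        have h7 : ‖ξ‖ / ((1 + ‖ζ‖) * (1 + ‖ξ - ζ‖)) ≤ 1 / (1 + ‖ζ‖) + 1 / (1 + ‖ξ - ζ‖) := by
          rw [div_add_div _ _ h5.ne' h6.ne']
          gcongr
          linarith
        calc ‖ξ‖ * (F ζ * G (ξ - ζ) / ((1 + ‖ζ‖) * (1 + ‖ξ - ζ‖)))
            = (F ζ * G (ξ - ζ)) * (‖ξ‖ / ((1 + ‖ζ‖) * (1 + ‖ξ - ζ‖))) := by ring
          _ ≤ (F ζ * G (ξ - ζ)) * (1 / (1 + ‖ζ‖) + 1 / (1 + ‖ξ - ζ‖)) :=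
              mul_le_mul_of_nonneg_left h7 (mul_nonneg (hF0 _) (hG0 _))
          _ = _ := by ring
      refine (ENNReal.ofReal_le_ofReal h3).trans ?_
      rw [ENNReal.ofReal_add (mul_nonneg (mul_nonneg (hF0 _) (hG0 _)) (by positivity))
        (mul_nonneg (mul_nonneg (hF0 _) (hG0 _)) (by positivity)),
        ENNReal.ofReal_mul (mul_nonneg (hF0 _) (hG0 _)),
        ENNReal.ofReal_mul (mul_nonneg (hF0 _) (hG0 _)), ENNReal.ofReal_mul (hF0 _)]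
      rfl
    · exact (hfm.mul (hgm.comp (measurable_const.sub measurable_id))).mul ww_meas
  -- the lower integral
  set T : E → ℝ := fun ξ => ((1 + ‖ξ‖) * min τ (1 / ‖ξ‖ ^ 2) * ‖ξ‖ * H ξ) ^ 2 with hT
  have hTm : Measurable T := by
    simp only [hT]
    fun_prop
  have hT0 : ∀ ξ, 0 ≤ T ξ := fun ξ => sq_nonneg _
  have hTb : ∫⁻ ξ, ENNReal.ofReal (T ξ) ≤
      ENNReal.ofReal (ε ^ 2 * (∫ ξ, F ξ ^ 2) * ∫ ξ, G ξ ^ 2) := by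
    have h1 : ∀ ξ, ENNReal.ofReal (T ξ) ≤
        2 * (k ξ * ∫⁻ ζ, f ζ * g (ξ - ζ) * ww ζ) ^ 2 +
        2 * (k ξ * ∫⁻ ζ, f ζ * g (ξ - ζ) * ww (ξ - ζ)) ^ 2 := by
      intro ξ
      have e : T ξ = (kk τ ξ * (‖ξ‖ * H ξ)) ^ 2 := by
        simp only [hT, kk]; ring
      rw [e, ENNReal.ofReal_pow (mul_nonneg (kk_nonneg τ hτ0.le ξ)
        (mul_nonneg (norm_nonneg _) (hH0 ξ))), ENNReal.ofReal_mul (kk_nonneg τ hτ0.le ξ)]
      calc (ENNReal.ofReal (kk τ ξ) * ENNReal.ofReal (‖ξ‖ * H ξ)) ^ 2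
          ≤ (k ξ * ((∫⁻ ζ, f ζ * g (ξ - ζ) * ww ζ) + ∫⁻ ζ, f ζ * g (ξ - ζ) * ww (ξ - ζ))) ^ 2 := by
            gcongr
            exact hpt ξ
        _ ≤ _ := by
            rw [mul_add]
            generalize k ξ * ∫⁻ ζ, f ζ * g (ξ - ζ) * ww ζ = a
            generalize k ξ * ∫⁻ ζ, f ζ * g (ξ - ζ) * ww (ξ - ζ) = b
            have h := ENNReal.rpow_add_le_mul_rpow_add_rpow a b (p := 2) (by norm_num)
            have h2 : (2 : ℝ) - 1 = 1 := by norm_num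
            rw [h2, ENNReal.rpow_one] at h
            have h3 : ∀ x : ℝ≥0∞, x ^ (2 : ℝ) = x ^ 2 := fun x => by
              rw [show (2 : ℝ) = ((2 : ℕ) : ℝ) by norm_num, ENNReal.rpow_natCast]
            rw [h3, h3, h3, mul_add] at h
            exact h
    have hm1 : Measurable fun ξ => (k ξ * ∫⁻ ζ, f ζ * g (ξ - ζ) * ww ζ) ^ 2 := by
      refine (hkm.mul ?_).pow_const _
      apply Measurable.lintegral_prod_right'
        (f := fun z : E × E => f z.2 * g (z.1 - z.2) * ww z.2)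
      have := ww_meas
      fun_prop
    have hm2 : Measurable fun ξ => (k ξ * ∫⁻ ζ, f ζ * g (ξ - ζ) * ww (ξ - ζ)) ^ 2 := by
      refine (hkm.mul ?_).pow_const _
      apply Measurable.lintegral_prod_right'
        (f := fun z : E × E => f z.2 * g (z.1 - z.2) * ww (z.1 - z.2))
      have := ww_meas
      fun_prop
    calc ∫⁻ ξ, ENNReal.ofReal (T ξ)
        ≤ ∫⁻ ξ, (2 * (k ξ * ∫⁻ ζ, f ζ * g (ξ - ζ) * ww ζ) ^ 2 +
            2 * (k ξ * ∫⁻ ζ, f ζ * g (ξ - ζ) * ww (ξ - ζ)) ^ 2) := lintegral_mono h1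
      _ = 2 * (∫⁻ ξ, (k ξ * ∫⁻ ζ, f ζ * g (ξ - ζ) * ww ζ) ^ 2) +
            2 * ∫⁻ ξ, (k ξ * ∫⁻ ζ, f ζ * g (ξ - ζ) * ww (ξ - ζ)) ^ 2 := by
          rw [lintegral_add_left (hm1.const_mul _), lintegral_const_mul _ hm1,
            lintegral_const_mul _ hm2]
      _ ≤ 2 * ((∫⁻ ξ, f ξ ^ 2) * (∫⁻ ξ, g ξ ^ 2) *
            ((∫⁻ ξ, k ξ ^ 4) * ∫⁻ ξ, ww ξ ^ 4) ^ (1 / 2 : ℝ)) +
          2 * ((∫⁻ ξ, f ξ ^ 2) * (∫⁻ ξ, g ξ ^ 2) *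
            ((∫⁻ ξ, k ξ ^ 4) * ∫⁻ ξ, ww ξ ^ 4) ^ (1 / 2 : ℝ)) := by
          gcongr
          · exact main1 f g ww k hfm hgm ww_meas hkm
          · exact main2 f g ww k hfm hgm ww_meas hkm
      _ = (4 * ((∫⁻ ξ, k ξ ^ 4) * ∫⁻ ξ, ww ξ ^ 4) ^ (1 / 2 : ℝ)) *
          (∫⁻ ξ, f ξ ^ 2) * (∫⁻ ξ, g ξ ^ 2) := by ring
      _ ≤ ENNReal.ofReal (ε ^ 2) * (∫⁻ ξ, f ξ ^ 2) * (∫⁻ ξ, g ξ ^ 2) := by
          gcongr
      _ = ENNReal.ofReal (ε ^ 2 * (∫ ξ, F ξ ^ 2) * ∫ ξ, G ξ ^ 2) := by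
          rw [← hX, ← hY, ENNReal.ofReal_mul (mul_nonneg (sq_nonneg _)
            (integral_nonneg fun _ => sq_nonneg _)), ENNReal.ofReal_mul (sq_nonneg _)]
  have hTi : Integrable T := by
    refine ⟨hTm.aestronglyMeasurable, ?_⟩
    rw [hasFiniteIntegral_iff_ofReal (Filter.Eventually.of_forall hT0)]
    exact lt_of_le_of_lt hTb ENNReal.ofReal_lt_top
  refine ⟨hint, hTi, ?_⟩
  rw [integral_eq_lintegral_of_nonneg_ae (Filter.Eventually.of_forall hT0)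
    hTm.aestronglyMeasurable]
  have h2 := ENNReal.toReal_mono ENNReal.ofReal_ne_top hTb
  rwa [ENNReal.toReal_ofReal] at h2
  exact mul_nonneg (mul_nonneg (sq_nonneg _) (integral_nonneg fun _ => sq_nonneg _))
    (integral_nonneg fun _ => sq_nonneg _)

end Pool.Agent.Q174.LH
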